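import Mathlib
import Pool.Agent.Helper50.Rec.Basic
import Pool.Agent.Helper50.Rec.ArithDefs

/-!
# REC-13: preparations for the arithmetic input
-/

open Finset Filter Topology Polynomial
open scoped BigOperators

namespace Pool.Agent.Helper50.Rec

/-! ### Parameters -/

theorem ar_gb_ne (g : ℝ) (hg : ∀ k : ℤ, g ≠ k) (i : ℕ) : gb g i ≠ 0 := by
  unfold gb
  apply div_ne_zero
  · apply Finset.prod_ne_zero_iff.2
    intro j _ h
    apply hg j
    push_cast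
    linarith
  · exact_mod_cast i.factorial_ne_zero

theorem ar_params (a b : ℝ) (ha : 1 < a) (hab : a < b) (ha' : ∀ k : ℤ, a ≠ k)
    (hb' : ∀ k : ℤ, b ≠ k) :
    ∃ D e : ℕ, Params a b D e ∧ 1 ≤ e ∧ e < D ∧ b < D ∧ a < e ∧ e * b < a * D ∧
      a * D < (e + 1) * b := by
  have hb0 : 0 < b := by linarith
  obtain ⟨D, hD, hne⟩ : ∃ D : ℕ, 2 * b + 1 ≤ D ∧ ∀ k : ℤ, a * D / b ≠ k := by
    by_cases h : ∃ k : ℤ, a * (⌈2 * b + 1⌉₊ : ℕ) / b = k
    · obtain ⟨k, hk⟩ := h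
      refine ⟨⌈2 * b + 1⌉₊ + 1, ?_, ?_⟩
      · have := Nat.le_ceil (2 * b + 1)
        push_cast; linarith
      · intro l hl
        have h1 : a * ((⌈2 * b + 1⌉₊ + 1 : ℕ) : ℝ) / b = a * (⌈2 * b + 1⌉₊ : ℕ) / b + a / b := by
          push_cast; ring
        rw [h1, hk] at hl
        have h2 : a / b = ((l - k : ℤ) : ℝ) := by push_cast; linarith
        have h3 : 0 < a / b := by positivity
        have h4 : a / b < 1 := (div_lt_one hb0).2 hab
        rw [h2] at h3 h4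
        have h5 : (0 : ℤ) < l - k := by exact_mod_cast h3
        have h6 : (l - k : ℤ) < 1 := by exact_mod_cast h4
        omega
    · push Not at h
      exact ⟨_, Nat.le_ceil _, h⟩
  have hD0 : (0 : ℝ) < D := by linarith
  have hx0 : 0 ≤ a * D / b := by positivity
  have hfl := Nat.floor_le hx0
  have hlt := Nat.lt_floor_add_one (a * D / b)
  refine ⟨D, ⌊a * D / b⌋₊, ⟨ha, hab, ha', hb', hD, hne, rfl⟩, ?_⟩
  have hbD : b < D := by linarith
  have h1 : a * D / b ≥ 2 * a := by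
    rw [ge_iff_le, le_div_iff₀ hb0]
    nlinarith
  have hfl' : ((⌊a * D / b⌋₊ : ℕ) : ℝ) < a * D / b := by
    rcases lt_or_eq_of_le hfl with h | h
    · exact h
    · exact absurd (by push_cast; exact h.symm) (hne ((⌊a * D / b⌋₊ : ℕ) : ℤ))
  have h2 : a < (⌊a * D / b⌋₊ : ℕ) := by linarith
  refine ⟨?_, ?_, hbD, h2, ?_, ?_⟩
  · have : (1 : ℝ) < (⌊a * D / b⌋₊ : ℕ) := by linarith
    exact_mod_cast this.le
  · have : ((⌊a * D / b⌋₊ : ℕ) : ℝ) < D := by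
      refine lt_of_lt_of_le hfl' ?_
      rw [div_le_iff₀ hb0]; nlinarith
    exact_mod_cast this
  · rwa [lt_div_iff₀ hb0] at hfl'
  · rwa [div_lt_iff₀ hb0] at hlt

/-! ### Windows -/

/-- constant in the size of the window -/
noncomputable def arK (b : ℝ) (D r : ℕ) (η : ℝ) : ℝ := (|gb b D| / (r + η)) ^ (1 / ((D : ℝ) - b))

theorem arK_pos {b : ℝ} {D r : ℕ} {η : ℝ} (hb : ∀ k : ℤ, b ≠ k) (hη : 0 < η) :
    0 < arK b D r η := by
  unfold arK
  apply Real.rpow_pos_of_pos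
  have := abs_pos.2 (ar_gb_ne b hb D)
  positivity

theorem ar_winU_eq {b : ℝ} {D r : ℕ} {η : ℝ} (hη : 0 < η) {q : ℕ} :
    winU b D r η q = arK b D r η * (q : ℝ) ^ ((D : ℝ) / (D - b)) := by
  unfold winU arK
  rw [show |gb b D| * (q : ℝ) ^ D / (r + η) = |gb b D| / (r + η) * (q : ℝ) ^ D by ring,
    Real.mul_rpow (by positivity) (by positivity), ← Real.rpow_natCast (q : ℝ) D,
    ← Real.rpow_mul (Nat.cast_nonneg q)]
  congr 2
  ring

theorem ar_winU_pos {b : ℝ} {D r : ℕ} {η : ℝ} (hb : ∀ k : ℤ, b ≠ k) (hη : 0 < η) {q : ℕ}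
    (hq : 1 ≤ q) : 0 < winU b D r η q := by
  rw [ar_winU_eq hη]
  have hq0 : (0 : ℝ) < q := by exact_mod_cast hq
  exact mul_pos (arK_pos hb hη) (Real.rpow_pos_of_pos hq0 _)

theorem ar_pow_eq {b : ℝ} {D r : ℕ} {η : ℝ} (hb : ∀ k : ℤ, b ≠ k) (hη : 0 < η) {q : ℕ}
    (hq : 1 ≤ q) (x y : ℝ) :
    winU b D r η q ^ x * (q : ℝ) ^ y =
      arK b D r η ^ x * (q : ℝ) ^ ((D : ℝ) / (D - b) * x + y) := by
  have hq0 : (0 : ℝ) < q := by exact_mod_cast hq
  rw [ar_winU_eq hη, Real.mul_rpow (arK_pos hb hη).le (by positivity), ← Real.rpow_mul hq0.le,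
    mul_assoc, ← Real.rpow_add hq0]

theorem ar_tendsto_zero {b : ℝ} {D r : ℕ} {η : ℝ} (hb : ∀ k : ℤ, b ≠ k) (hη : 0 < η)
    (x y : ℝ) (hxy : (D : ℝ) / (D - b) * x + y < 0) :
    Tendsto (fun q : ℕ => winU b D r η q ^ x * (q : ℝ) ^ y) atTop (𝓝 0) := by
  have h1 : Tendsto (fun q : ℕ => arK b D r η ^ x *
      (q : ℝ) ^ (-(-((D : ℝ) / (D - b) * x + y)))) atTop (𝓝 0) := by
    have := (tendsto_rpow_neg_atTop (neg_pos.2 hxy)).comp tendsto_natCast_atTop_atTop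
    simpa using this.const_mul (arK b D r η ^ x)
  refine h1.congr' ?_
  filter_upwards [Filter.eventually_ge_atTop 1] with q hq
  rw [ar_pow_eq hb hη hq, neg_neg]

theorem ar_tendsto_top {b : ℝ} {D r : ℕ} {η : ℝ} (hb : ∀ k : ℤ, b ≠ k) (hη : 0 < η)
    (x y : ℝ) (hxy : 0 < (D : ℝ) / (D - b) * x + y) :
    Tendsto (fun q : ℕ => winU b D r η q ^ x * (q : ℝ) ^ y) atTop atTop := by
  have h1 : Tendsto (fun q : ℕ => arK b D r η ^ x *
      (q : ℝ) ^ ((D : ℝ) / (D - b) * x + y)) atTop atTop := by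
    have := (tendsto_rpow_atTop hxy).comp tendsto_natCast_atTop_atTop
    exact this.const_mul_atTop (Real.rpow_pos_of_pos (arK_pos hb hη) x)
  refine h1.congr' ?_
  filter_upwards [Filter.eventually_ge_atTop 1] with q hq
  rw [ar_pow_eq hb hη hq]

/-- the ratio of the end points of the window -/
theorem ar_winV_eq {b : ℝ} {D r : ℕ} {η : ℝ} (hη : 0 < η) (hr : 1 ≤ r) {q : ℕ} :
    winV b D r q = ((r + η) / r) ^ (1 / ((D : ℝ) - b)) * winU b D r η q := by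
  unfold winV winU
  have hr0 : (0 : ℝ) < r := by exact_mod_cast hr
  rw [← Real.mul_rpow (by positivity) (by positivity)]
  congr 1
  field_simp

theorem ar_range {b : ℝ} {D r : ℕ} {η : ℝ} (hb : ∀ k : ℤ, b ≠ k) (hη : 0 < η) (hr : 1 ≤ r)
    (hbD : b < D) {q : ℕ} (hq : 1 ≤ q) {x : ℝ} (h1 : winU b D r η q ≤ x)
    (h2 : x ≤ winV b D r q) :
    r ≤ |gb b D| * x ^ (b - D) * (q : ℝ) ^ D ∧ |gb b D| * x ^ (b - D) * (q : ℝ) ^ D ≤ r + η := by
  have hr0 : (0 : ℝ) < r := by exact_mod_cast hr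
  have hq0 : (0 : ℝ) < q := by exact_mod_cast hq
  have hG : 0 < |gb b D| := abs_pos.2 (ar_gb_ne b hb D)
  have hDb : (0 : ℝ) < D - b := by linarith
  have hU0 := ar_winU_pos (r := r) (D := D) hb hη hq
  have hx0 : 0 < x := lt_of_lt_of_le hU0 h1
  have key : ∀ y : ℝ, 0 < y → ((y ^ (1 / ((D : ℝ) - b))) : ℝ) ^ (b - (D : ℝ)) = y⁻¹ := by
    intro y hy
    rw [← Real.rpow_mul hy.le]
    have : 1 / ((D : ℝ) - b) * (b - D) = -1 := by field_simp; ring
    rw [this, Real.rpow_neg_one]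
  constructor
  · have h3 : winV b D r q ^ (b - (D : ℝ)) ≤ x ^ (b - (D : ℝ)) :=
      Real.rpow_le_rpow_of_nonpos hx0 h2 (by linarith)
    unfold winV at h3
    rw [key _ (by positivity)] at h3
    have h4 : (|gb b D| * (q : ℝ) ^ D / r)⁻¹ * (|gb b D| * (q : ℝ) ^ D) = r := by
      field_simp
    calc (r : ℝ) = (|gb b D| * (q : ℝ) ^ D / r)⁻¹ * (|gb b D| * (q : ℝ) ^ D) := h4.symm
      _ ≤ x ^ (b - (D : ℝ)) * (|gb b D| * (q : ℝ) ^ D) :=
        mul_le_mul_of_nonneg_right h3 (by positivity)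
      _ = _ := by ring
  · have h3 : x ^ (b - (D : ℝ)) ≤ winU b D r η q ^ (b - (D : ℝ)) :=
      Real.rpow_le_rpow_of_nonpos hU0 h1 (by linarith)
    unfold winU at h3
    rw [key _ (by positivity)] at h3
    have h4 : (|gb b D| * (q : ℝ) ^ D / (r + η))⁻¹ * (|gb b D| * (q : ℝ) ^ D) = r + η := by
      field_simp
    calc |gb b D| * x ^ (b - D) * (q : ℝ) ^ D = x ^ (b - (D : ℝ)) * (|gb b D| * (q : ℝ) ^ D) := by
          ring
      _ ≤ (|gb b D| * (q : ℝ) ^ D / (r + η))⁻¹ * (|gb b D| * (q : ℝ) ^ D) :=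
        mul_le_mul_of_nonneg_right h3 (by positivity)
      _ = r + η := h4

end Pool.Agent.Helper50.Rec
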