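import Pool.Agent.Helper28.Rec.ArithA

/-!
# REC-13: polynomials with coefficients divisible by `r`, the floor of a Taylor polynomial
-/

open Finset Filter Topology Polynomial
open scoped BigOperators

namespace Pool.Agent.Helper50.Rec

theorem ar_poly (r d : ℕ) (t : ℕ → ℤ) (lead : ℤ) (hl : lead ≠ 0) (hr : (r : ℤ) ∣ lead) :
    ∃ P : ℤ[X], P.natDegree = d ∧ P.leadingCoeff = lead ∧ (∀ i, (r : ℤ) ∣ P.coeff i) ∧
      ∀ h : ℤ, P.eval h = ∑ i ∈ range d, (r : ℤ) * t i * h ^ i + lead * h ^ d := by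
  set P : ℤ[X] := ∑ i ∈ range d, C ((r : ℤ) * t i) * X ^ i + C lead * X ^ d with hP
  have hcoeff : ∀ j, P.coeff j = if j < d then (r : ℤ) * t j else if j = d then lead else 0 := by
    intro j
    rw [hP, coeff_add, finsetSum_coeff]
    simp only [coeff_C_mul, coeff_X_pow]
    by_cases h1 : j < d
    · rw [if_pos h1, if_neg (by omega : ¬ j = d), mul_zero, add_zero,
        Finset.sum_eq_single_of_mem j (Finset.mem_range.2 h1)]
      · simp
      · intro i _ hi
        rw [if_neg (Ne.symm hi), mul_zero]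
    · rw [if_neg h1, Finset.sum_eq_zero, zero_add]
      · split_ifs <;> simp
      · intro i hi
        have := Finset.mem_range.1 hi
        rw [if_neg (by omega : ¬ j = i), mul_zero]
  have hdeg : P.natDegree = d := by
    apply Polynomial.natDegree_eq_of_le_of_coeff_ne_zero
    · rw [Polynomial.natDegree_le_iff_coeff_eq_zero]
      intro j hj
      rw [hcoeff, if_neg (by omega), if_neg (by omega)]
    · rw [hcoeff, if_neg (by omega), if_pos rfl]; exact hl
  refine ⟨P, hdeg, ?_, ?_, ?_⟩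
  · rw [Polynomial.leadingCoeff, hdeg, hcoeff, if_neg (by omega), if_pos rfl]
  · intro i
    rw [hcoeff]
    split_ifs
    · exact Dvd.intro _ rfl
    · exact hr
    · exact dvd_zero _
  · intro h
    rw [hP]
    simp [eval_finsetSum]

/-- The floor of a value that is close to a polynomial whose coefficients have small fractional
parts after division by `r`. -/
theorem ar_floor (r d H : ℕ) (hr : 1 ≤ r) (hd : 1 ≤ d) (c : ℕ → ℝ) (lead : ℤ) (δ : ℝ)
    (hδ0 : 0 ≤ δ) (hδ : δ * ((d : ℝ) * r * (H : ℝ) ^ d) ≤ 1 / 16) (h : ℕ) (hh : h ≤ H)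
    (h0 : 1 / (4 * (r : ℝ)) ≤ Int.fract (c 0 / r) ∧ Int.fract (c 0 / r) ≤ 1 / (2 * (r : ℝ)))
    (hi : ∀ i, 1 ≤ i → i < d → Int.fract (c i / r) ≤ δ)
    (hlead : |c d - lead| * (H : ℝ) ^ d ≤ 1 / 16) (val : ℝ)
    (herr : |val - ∑ i ∈ range (d + 1), c i * (h : ℝ) ^ i| ≤ 1 / 16) :
    ⌊val⌋ = ∑ i ∈ range d, (r : ℤ) * ⌊c i / r⌋ * (h : ℤ) ^ i + lead * (h : ℤ) ^ d := by
  have hr0 : (0 : ℝ) < r := by exact_mod_cast hr
  have hci : ∀ i, c i = (r : ℝ) * (⌊c i / r⌋ : ℤ) + r * Int.fract (c i / r) := by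
    intro i
    have := Int.floor_add_fract (c i / r)
    rw [← mul_add, this]; field_simp
  have hhH : (h : ℝ) ≤ H := by exact_mod_cast hh
  have hH0 : (0 : ℝ) ≤ H := Nat.cast_nonneg _
  have hh0 : (0 : ℝ) ≤ h := Nat.cast_nonneg _
  -- the remainder
  obtain ⟨d', rfl⟩ : ∃ d', d = d' + 1 := ⟨d - 1, by omega⟩
  set S : ℝ := ∑ i ∈ range d', r * Int.fract (c (i + 1) / r) * (h : ℝ) ^ (i + 1) with hS
  have hS0 : 0 ≤ S := Finset.sum_nonneg fun i _ => by
    have := Int.fract_nonneg (c (i + 1) / r)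
    positivity
  have hS1 : S ≤ 1 / 16 := by
    by_cases hH1 : (1 : ℝ) ≤ H
    · calc S ≤ ∑ i ∈ range d', r * δ * (H : ℝ) ^ (d' + 1) := by
            refine Finset.sum_le_sum fun i hi' => ?_
            have h1 := hi (i + 1) (by omega) (by have := Finset.mem_range.1 hi'; omega)
            have h2 : (h : ℝ) ^ (i + 1) ≤ (H : ℝ) ^ (d' + 1) := by
              calc (h : ℝ) ^ (i + 1) ≤ (H : ℝ) ^ (i + 1) := pow_le_pow_left₀ hh0 hhH _
                _ ≤ (H : ℝ) ^ (d' + 1) := pow_le_pow_right₀ hH1 (by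
                    have := Finset.mem_range.1 hi'; omega)
            have h3 := Int.fract_nonneg (c (i + 1) / r)
            gcongr
        _ = δ * ((d' : ℝ) * r * (H : ℝ) ^ (d' + 1)) := by
            rw [Finset.sum_const, Finset.card_range, nsmul_eq_mul]; ring
        _ ≤ δ * (((d' + 1 : ℕ) : ℝ) * r * (H : ℝ) ^ (d' + 1)) := by
            apply mul_le_mul_of_nonneg_left _ hδ0
            push_cast
            have : 0 ≤ (r : ℝ) * (H : ℝ) ^ (d' + 1) := by positivity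
            nlinarith
        _ ≤ 1 / 16 := hδ
    · have hH' : H = 0 := by
        by_contra hne
        exact hH1 (by exact_mod_cast Nat.one_le_iff_ne_zero.2 hne)
      have hh' : h = 0 := by omega
      rw [hS, hh']
      simp
  set Lr : ℝ := (c (d' + 1) - lead) * (h : ℝ) ^ (d' + 1) with hLr
  have hLr1 : |Lr| ≤ 1 / 16 := by
    rw [hLr, abs_mul, abs_of_nonneg (by positivity : (0 : ℝ) ≤ (h : ℝ) ^ (d' + 1))]
    refine le_trans ?_ hlead
    exact mul_le_mul_of_nonneg_left (pow_le_pow_left₀ hh0 hhH _) (abs_nonneg _)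
  set F0 : ℝ := r * Int.fract (c 0 / r) with hF0
  have hF1 : 1 / 4 ≤ F0 := by
    calc (1 : ℝ) / 4 = r * (1 / (4 * r)) := by field_simp
      _ ≤ F0 := mul_le_mul_of_nonneg_left h0.1 hr0.le
  have hF2 : F0 ≤ 1 / 2 := by
    calc F0 ≤ r * (1 / (2 * r)) := mul_le_mul_of_nonneg_left h0.2 hr0.le
      _ = 1 / 2 := by field_simp
  -- decomposition
  have hsum : ∑ i ∈ range (d' + 1 + 1), c i * (h : ℝ) ^ i =
      ((∑ i ∈ range (d' + 1), (r : ℤ) * ⌊c i / r⌋ * (h : ℤ) ^ i + lead * (h : ℤ) ^ (d' + 1) : ℤ) : ℝ)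
        + (F0 + S + Lr) := by
    rw [Finset.sum_range_succ]
    have e1 : ∑ i ∈ range (d' + 1), c i * (h : ℝ) ^ i =
        ∑ i ∈ range (d' + 1), (r : ℝ) * (⌊c i / r⌋ : ℤ) * (h : ℝ) ^ i +
          ∑ i ∈ range (d' + 1), r * Int.fract (c i / r) * (h : ℝ) ^ i := by
      rw [← Finset.sum_add_distrib]
      refine Finset.sum_congr rfl fun i _ => ?_
      rw [← add_mul, ← hci]
    have e2 : ∑ i ∈ range (d' + 1), r * Int.fract (c i / r) * (h : ℝ) ^ i = F0 + S := by
      rw [Finset.sum_range_succ', hS, hF0]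
      simp [add_comm]
    rw [e1, e2, hLr]
    push_cast
    ring
  rw [hsum] at herr
  rw [Int.floor_eq_iff]
  rw [abs_le] at herr hLr1
  constructor
  · linarith [herr.1, hLr1.1]
  · linarith [herr.2, hLr1.2]

end Pool.Agent.Helper50.Rec
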