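import Pool.Agent.Helper28.Rec.ArithB

/-!
# REC-13: the intervals of base points with prescribed leading coefficient
-/

open Finset Filter Topology Polynomial
open scoped BigOperators

namespace Pool.Agent.Helper50.Rec

/-- A decreasing power function: the set where it lies between `y` and `z`. -/
theorem ar_window (lam G U V y z : ℝ) (hlam : 0 < lam) (hG : 0 < G) (hU : 0 < U) (hUV : U ≤ V)
    (hyz : y < z) (h1 : G * V ^ (-lam) ≤ y) (h2 : z ≤ G * U ^ (-lam)) :
    ∃ u v : ℝ, U ≤ u ∧ u < v ∧ v ≤ V ∧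
      (∀ x, u ≤ x → x ≤ v → y ≤ G * x ^ (-lam) ∧ G * x ^ (-lam) ≤ z) ∧
      (z - y) / (G * lam) * U ^ (1 + lam) ≤ v - u := by
  have hV : 0 < V := lt_of_lt_of_le hU hUV
  have hcont : ContinuousOn (fun x : ℝ => G * x ^ (-lam)) (Set.Icc U V) := by
    apply ContinuousOn.mul continuousOn_const
    intro x hx
    exact (Real.continuousAt_rpow_const x (-lam) (Or.inl (by linarith [hx.1]))).continuousWithinAt
  have hivt := intermediate_value_Icc' hUV hcont
  have hanti : ∀ x x', 0 < x → x ≤ x' → G * x' ^ (-lam) ≤ G * x ^ (-lam) := fun x x' hx hxx' =>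
    mul_le_mul_of_nonneg_left (Real.rpow_le_rpow_of_nonpos hx hxx' (by linarith)) hG.le
  obtain ⟨u, hu, hu2⟩ := hivt ⟨by linarith, h2⟩
  obtain ⟨v, hv, hv2⟩ := hivt ⟨h1, by linarith⟩
  simp only at hu2 hv2
  have hu0 : 0 < u := lt_of_lt_of_le hU hu.1
  have huv : u < v := by
    by_contra hcon
    push Not at hcon
    have := hanti v u (lt_of_lt_of_le hU hv.1) hcon
    linarith
  have hv0 : 0 < v := lt_trans hu0 huv
  refine ⟨u, v, hu.1, huv, hv.2, fun x hx1 hx2 => ?_, ?_⟩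
  · constructor
    · rw [← hv2]; exact hanti x v (lt_of_lt_of_le hu0 hx1) hx2
    · rw [← hu2]; exact hanti u x hu0 hx1
  · -- `z - y = G (u^(-lam) - v^(-lam)) ≤ G lam u^(-lam-1) (v - u)`
    have h3 : 1 - lam * ((v - u) / u) ≤ (v / u) ^ (-lam) := by
      have e1 : v / u = 1 + (v - u) / u := by field_simp; ring
      have ht : 0 < (v - u) / u := div_pos (by linarith) hu0
      rw [e1, Real.rpow_def_of_pos (by linarith)]
      have h4 : Real.log (1 + (v - u) / u) ≤ (v - u) / u := by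
        have := Real.log_le_sub_one_of_pos (show 0 < 1 + (v - u) / u by linarith)
        linarith
      have h5 : -(lam * ((v - u) / u)) ≤ Real.log (1 + (v - u) / u) * -lam := by nlinarith
      calc 1 - lam * ((v - u) / u) ≤ Real.exp (-(lam * ((v - u) / u))) := by
            have := Real.add_one_le_exp (-(lam * ((v - u) / u))); linarith
        _ ≤ _ := Real.exp_le_exp.2 h5
    have h6 : v ^ (-lam) = (v / u) ^ (-lam) * u ^ (-lam) := by
      rw [← Real.mul_rpow (by positivity) hu0.le]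
      congr 1; field_simp
    have h7 : z - y = G * u ^ (-lam) * (1 - (v / u) ^ (-lam)) := by
      rw [← hu2, ← hv2, h6]; ring
    have h8 : z - y ≤ G * u ^ (-lam) * (lam * ((v - u) / u)) := by
      rw [h7]
      apply mul_le_mul_of_nonneg_left (by linarith)
      have := Real.rpow_pos_of_pos hu0 (-lam)
      positivity
    have h9 : u ^ (1 + lam) * (u ^ (-lam) / u) = 1 := by
      rw [Real.rpow_add hu0, Real.rpow_one, Real.rpow_neg hu0.le]
      have := Real.rpow_pos_of_pos hu0 lam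
      field_simp
    have h10 : U ^ (1 + lam) ≤ u ^ (1 + lam) :=
      Real.rpow_le_rpow hU.le hu.1 (by linarith)
    have h11 : 0 ≤ (z - y) / (G * lam) := by
      apply div_nonneg (by linarith); positivity
    calc (z - y) / (G * lam) * U ^ (1 + lam) ≤ (z - y) / (G * lam) * u ^ (1 + lam) :=
          mul_le_mul_of_nonneg_left h10 h11
      _ ≤ (G * u ^ (-lam) * (lam * ((v - u) / u))) / (G * lam) * u ^ (1 + lam) := by
          apply mul_le_mul_of_nonneg_right _ (Real.rpow_nonneg hu0.le _)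
          apply div_le_div_of_nonneg_right h8; positivity
      _ = (v - u) * (u ^ (1 + lam) * (u ^ (-lam) / u)) := by field_simp
      _ = v - u := by rw [h9, mul_one]

/-- Integers `x` of a long interval such that `[r x, r x + r ζ]` (up to the sign of `g`) is in the
range of the leading coefficient. -/
theorem ar_interval (lam g Q U V r ζ : ℝ) (L₀ : ℕ) (hlam : 0 < lam) (hg : g ≠ 0) (hQ : 0 < Q)
    (hU : 0 < U) (hUV : U ≤ V) (hr : 0 < r) (hζ : 0 < ζ) (hζ1 : ζ ≤ 1)
    (hlen : r * (L₀ + 1) ≤ |g| * Q * U ^ (-lam) - |g| * Q * V ^ (-lam)) :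
    ∃ x₀ : ℤ, ∀ x : ℤ, x₀ ≤ x → x < x₀ + L₀ → x ≠ 0 ∧ ∃ u v : ℝ, U ≤ u ∧ u < v ∧ v ≤ V ∧
      (∀ t, u ≤ t → t ≤ v → r * x ≤ g * Q * t ^ (-lam) ∧ g * Q * t ^ (-lam) ≤ r * x + r * ζ) ∧
      (r * ζ) / (|g| * Q * lam) * U ^ (1 + lam) ≤ v - u := by
  have hV : 0 < V := lt_of_lt_of_le hU hUV
  have hG : 0 < |g| * Q := mul_pos (abs_pos.2 hg) hQ
  set y1 := |g| * Q * V ^ (-lam) with hy1
  set y2 := |g| * Q * U ^ (-lam) with hy2
  have hy10 : 0 < y1 := mul_pos hG (Real.rpow_pos_of_pos hV _)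
  have hrz : 0 < r * ζ := mul_pos hr hζ
  have hrz1 : r * ζ ≤ r := by nlinarith
  rcases lt_or_gt_of_ne hg with hneg | hpos
  · -- negative coefficient
    have habs : |g| = -g := abs_of_neg hneg
    refine ⟨-⌊y2 / r⌋, fun x hx1 hx2 => ?_⟩
    have hfl1 := Int.floor_le (y2 / r)
    have hfl2 := Int.lt_floor_add_one (y2 / r)
    have hx1' : (-x : ℝ) ≤ ⌊y2 / r⌋ := by
      have : -x ≤ ⌊y2 / r⌋ := by omega
      exact_mod_cast this
    have hx2' : (⌊y2 / r⌋ : ℝ) + 1 ≤ -x + L₀ := by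
      have : ⌊y2 / r⌋ + 1 ≤ -x + L₀ := by omega
      exact_mod_cast this
    have hy2r : r * (y2 / r) = y2 := by field_simp
    have hup : -(r * x) ≤ y2 := by
      have : r * (-x : ℝ) ≤ r * (y2 / r) := mul_le_mul_of_nonneg_left (by linarith) hr.le
      linarith
    have hlo : y1 ≤ -(r * x) - r * ζ := by
      have : r * (y2 / r) ≤ r * (-x + L₀) := mul_le_mul_of_nonneg_left (by linarith) hr.le
      nlinarith
    refine ⟨?_, ?_⟩
    · rintro rfl
      simp at hlo; linarith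
    · obtain ⟨u, v, h1, h2, h3, h4, h5⟩ := ar_window lam (|g| * Q) U V (-(r * x) - r * ζ) (-(r * x))
        hlam hG hU hUV (by linarith) hlo hup
      refine ⟨u, v, h1, h2, h3, fun t ht1 ht2 => ?_, ?_⟩
      · have := h4 t ht1 ht2
        rw [habs] at this
        constructor <;> linarith [this.1, this.2]
      · have e : -(r * x) - (-(r * x) - r * ζ) = r * ζ := by ring
        rwa [e] at h5
  · have habs : |g| = g := abs_of_pos hpos
    refine ⟨⌈y1 / r⌉, fun x hx1 hx2 => ?_⟩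
    have hfl1 := Int.le_ceil (y1 / r)
    have hfl2 := Int.ceil_lt_add_one (y1 / r)
    have hx1' : (⌈y1 / r⌉ : ℝ) ≤ x := by exact_mod_cast hx1
    have hx2' : (x : ℝ) + 1 ≤ ⌈y1 / r⌉ + L₀ := by
      have : x + 1 ≤ ⌈y1 / r⌉ + L₀ := by omega
      exact_mod_cast this
    have hy1r : r * (y1 / r) = y1 := by field_simp
    have hlo : y1 ≤ r * x := by
      have : r * (y1 / r) ≤ r * x := mul_le_mul_of_nonneg_left (by linarith) hr.le
      linarith
    have hup : r * x + r * ζ ≤ y2 := by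
      have : r * (x : ℝ) ≤ r * (y1 / r + L₀) := mul_le_mul_of_nonneg_left (by linarith) hr.le
      nlinarith
    refine ⟨?_, ?_⟩
    · rintro rfl
      simp at hlo; linarith
    · obtain ⟨u, v, h1, h2, h3, h4, h5⟩ := ar_window lam (|g| * Q) U V (r * x) (r * x + r * ζ)
        hlam hG hU hUV (by linarith) hlo hup
      refine ⟨u, v, h1, h2, h3, fun t ht1 ht2 => ?_, ?_⟩
      · have := h4 t ht1 ht2
        rw [habs] at this
        exact this
      · have e : r * x + r * ζ - r * x = r * ζ := by ring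
        rwa [e] at h5

/-- `⌊n^a⌋ ≠ ⌊n^b⌋` for large `n` -/
theorem ar_distinct (a b : ℝ) (ha : 0 < a) (hab : a < b) :
    ∃ n₀ : ℝ, 1 ≤ n₀ ∧ ∀ n : ℝ, n₀ ≤ n → ⌊n ^ a⌋₊ ≠ ⌊n ^ b⌋₊ := by
  have h1 : Tendsto (fun x : ℝ => x ^ (b - a)) atTop atTop := tendsto_rpow_atTop (by linarith)
  obtain ⟨n₁, hn₁⟩ := Filter.eventually_atTop.1 (h1.eventually_ge_atTop 2)
  refine ⟨max n₁ 1, le_max_right _ _, fun n hn => ?_⟩
  have hn1 : 1 ≤ n := le_trans (le_max_right _ _) hn
  have h2 := hn₁ n (le_trans (le_max_left _ _) hn)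
  have hn0 : 0 < n := by linarith
  have h3 : n ^ b = n ^ a * n ^ (b - a) := by
    rw [← Real.rpow_add hn0]; congr 1; ring
  have h4 : 1 ≤ n ^ a := Real.one_le_rpow hn1 ha.le
  have h5 : n ^ a + 1 ≤ n ^ b := by
    rw [h3]; nlinarith
  have h6 : ⌊n ^ a⌋₊ + 1 ≤ ⌊n ^ b⌋₊ := by
    apply Nat.le_floor
    push_cast
    have := Nat.floor_le (show 0 ≤ n ^ a by linarith)
    linarith
  omega

end Pool.Agent.Helper50.Rec
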