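import Mathlib
import Pool.Agent.Helper50.Rec.Basic
import Pool.Agent.Helper50.Rec.ArithDefs

/-!
# REC-13b: quantitative Weyl criterion for a box in the torus
-/

open Finset Filter Topology
open scoped BigOperators

namespace Pool.Agent.Helper50.Rec

theorem bp_ec_nat (n : ℕ) (t : ℝ) : ec t ^ n = ec (n * t) := by
  unfold ec
  rw [← Complex.exp_nat_mul]
  congr 1
  push_cast; ring

theorem bp_add_inv (t : ℝ) : ec t + ec (-t) = ((2 * Real.cos (2 * Real.pi * t) : ℝ) : ℂ) := by
  unfold ec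
  push_cast
  rw [Complex.two_cos]
  congr 2
  ring

theorem bp_cos_le (c w t : ℝ) (hw : 0 < w) (h1 : w / 2 ≤ |t - c|) (h2 : |t - c| ≤ 1 - w / 2) :
    Real.cos (2 * Real.pi * (t - c)) ≤ Real.cos (Real.pi * w) := by
  have hpi := Real.pi_pos
  have e1 : Real.cos (2 * Real.pi * (t - c)) = Real.cos (2 * Real.pi * |t - c|) := by
    rcases abs_cases (t - c) with ⟨h, -⟩ | ⟨h, -⟩
    · rw [h]
    · rw [h, mul_neg, Real.cos_neg]
  rw [e1]
  set x := |t - c| with hx
  have hw1 : w ≤ 1 := by linarith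
  rcases le_total x (1 / 2) with hx2 | hx2
  · apply Real.cos_le_cos_of_nonneg_of_le_pi
    · positivity
    · nlinarith
    · nlinarith
  · have e2 : Real.cos (2 * Real.pi * x) = Real.cos (2 * Real.pi * (1 - x)) := by
      rw [show 2 * Real.pi * (1 - x) = 2 * Real.pi - 2 * Real.pi * x by ring, Real.cos_two_pi_sub]
    rw [e2]
    apply Real.cos_le_cos_of_nonneg_of_le_pi
    · positivity
    · nlinarith
    · nlinarith

/-- the kernel in one variable -/
noncomputable def bpK (c : ℝ) (M : ℕ) (t : ℝ) : ℝ :=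
  ((1 + Real.cos (2 * Real.pi * (t - c))) / 2) ^ M * (4 ^ M / (Nat.centralBinom M : ℝ))

/-- its Fourier coefficients -/
noncomputable def bpA (c : ℝ) (M j : ℕ) : ℂ :=
  ((2 * M).choose j : ℂ) / (Nat.centralBinom M : ℂ) * ec (-(((j : ℝ) - M) * c))

theorem bpA_self (c : ℝ) (M : ℕ) : bpA c M M = 1 := by
  unfold bpA
  have h : (Nat.centralBinom M : ℂ) ≠ 0 := by
    exact_mod_cast (Nat.centralBinom_pos M).ne'
  rw [← Nat.centralBinom_eq_two_mul_choose, div_self h]
  simp [ec_zero]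

theorem bp_expand (c : ℝ) (M : ℕ) (t : ℝ) :
    ∑ j ∈ range (2 * M + 1), bpA c M j * ec (((j : ℝ) - M) * t) = (bpK c M t : ℂ) := by
  set z : ℂ := ec (t - c) with hz
  have hzi : z * ec (-(t - c)) = 1 := by
    rw [hz, ← ec_add]; simp [ec_zero]
  have hCB : (Nat.centralBinom M : ℂ) ≠ 0 := by
    exact_mod_cast (Nat.centralBinom_pos M).ne'
  have h1 : (bpK c M t : ℂ) * (Nat.centralBinom M : ℂ) = ((1 + z) * (1 + ec (-(t - c)))) ^ M := by
    have e1 : (1 + z) * (1 + ec (-(t - c))) =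
        ((4 * ((1 + Real.cos (2 * Real.pi * (t - c))) / 2) : ℝ) : ℂ) := by
      have e2 := bp_add_inv (t - c)
      rw [← hz] at e2
      calc (1 + z) * (1 + ec (-(t - c))) = 1 + z * ec (-(t - c)) + (z + ec (-(t - c))) := by ring
        _ = _ := by rw [hzi, e2]; push_cast; ring
    rw [e1]
    unfold bpK
    push_cast
    rw [mul_pow]
    field_simp
  have h2 : ((1 + z) * (1 + ec (-(t - c)))) ^ M = (1 + z) ^ (2 * M) * ec (-(t - c)) ^ M := by
    have : 1 + ec (-(t - c)) = (1 + z) * ec (-(t - c)) := by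
      rw [add_mul, hzi]; ring
    rw [this, two_mul, pow_add, mul_pow, mul_pow]; ring
  have h3 : (1 + z) ^ (2 * M) * ec (-(t - c)) ^ M =
      ∑ j ∈ range (2 * M + 1), ((2 * M).choose j : ℂ) * ec (((j : ℝ) - M) * (t - c)) := by
    rw [add_comm (1 : ℂ) z, add_pow, Finset.sum_mul]
    refine Finset.sum_congr rfl fun j _ => ?_
    rw [one_pow, mul_one, hz, bp_ec_nat, bp_ec_nat]
    have : ec ((j : ℝ) * (t - c)) * ec ((M : ℝ) * -(t - c)) = ec (((j : ℝ) - M) * (t - c)) := by
      rw [← ec_add]; congr 1; ring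
    rw [← this]; ring
  apply mul_right_cancel₀ hCB
  rw [h1, h2, h3, Finset.sum_mul]
  refine Finset.sum_congr rfl fun j _ => ?_
  have h4 : ec (((j : ℝ) - M) * (t - c)) = ec (-(((j : ℝ) - M) * c)) * ec (((j : ℝ) - M) * t) := by
    rw [← ec_add]; congr 1; ring
  rw [h4]
  unfold bpA
  field_simp

theorem bpK_nonneg (c : ℝ) (M : ℕ) (t : ℝ) : 0 ≤ bpK c M t := by
  unfold bpK
  have := Real.neg_one_le_cos (2 * Real.pi * (t - c))
  have h1 : 0 ≤ (1 + Real.cos (2 * Real.pi * (t - c))) / 2 := by linarith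
  positivity

theorem bp_central (M : ℕ) (hM : 1 ≤ M) : (4 : ℝ) ^ M / (Nat.centralBinom M : ℝ) ≤ 2 * M := by
  have h := Nat.four_pow_le_two_mul_self_mul_centralBinom M hM
  have hCB : (0 : ℝ) < (Nat.centralBinom M : ℝ) := by exact_mod_cast Nat.centralBinom_pos M
  rw [div_le_iff₀ hCB]
  exact_mod_cast h

theorem bpK_le (c : ℝ) (M : ℕ) (hM : 1 ≤ M) (t : ℝ) : bpK c M t ≤ 2 * M := by
  unfold bpK
  have h1 := Real.neg_one_le_cos (2 * Real.pi * (t - c))
  have h2 := Real.cos_le_one (2 * Real.pi * (t - c))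
  have h3 : 0 ≤ (1 + Real.cos (2 * Real.pi * (t - c))) / 2 := by linarith
  have h4 : ((1 + Real.cos (2 * Real.pi * (t - c))) / 2) ^ M ≤ 1 :=
    pow_le_one₀ h3 (by linarith)
  have h5 := bp_central M hM
  have h6 : 0 ≤ (4 : ℝ) ^ M / (Nat.centralBinom M : ℝ) := by positivity
  calc _ ≤ 1 * ((4 : ℝ) ^ M / (Nat.centralBinom M : ℝ)) := mul_le_mul_of_nonneg_right h4 h6
    _ ≤ 2 * M := by rw [one_mul]; exact h5

theorem bpK_period (c : ℝ) (M : ℕ) (t : ℝ) : bpK c M (Int.fract t) = bpK c M t := by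
  unfold bpK
  have : Real.cos (2 * Real.pi * (Int.fract t - c)) = Real.cos (2 * Real.pi * (t - c)) := by
    have e : 2 * Real.pi * (Int.fract t - c) =
        2 * Real.pi * (t - c) - (⌊t⌋ : ℤ) * (2 * Real.pi) := by
      rw [Int.fract]; ring
    rw [e, Real.cos_sub_int_mul_two_pi]
  rw [this]

/-- the kernel is small off the interval -/
theorem bpK_small (lo hi : ℝ) (h0 : 0 ≤ lo) (hlt : lo < hi) (h1 : hi ≤ 1) (m : ℕ) :
    ∃ M₀ : ℕ, ∀ M ≥ M₀, 1 ≤ M → ∀ t : ℝ, ¬ (lo ≤ Int.fract t ∧ Int.fract t ≤ hi) →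
      bpK ((lo + hi) / 2) M t * (2 * M) ^ m ≤ 1 / 4 := by
  set w := hi - lo with hw
  set q : ℝ := (1 + Real.cos (Real.pi * w)) / 2 with hq
  have hpi := Real.pi_pos
  have hw0 : 0 < w := by linarith
  have hw1 : w ≤ 1 := by linarith
  have hcos : Real.cos (Real.pi * w) < 1 := by
    have : Real.cos (Real.pi * w) < Real.cos 0 :=
      Real.cos_lt_cos_of_nonneg_of_le_pi le_rfl (by nlinarith) (by positivity)
    simpa using this
  have hcos' := Real.neg_one_le_cos (Real.pi * w)
  have hq0 : 0 ≤ q := by rw [hq]; linarith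
  have hq1 : q < 1 := by rw [hq]; linarith
  have hlim : Tendsto (fun n : ℕ => (n : ℝ) ^ (m + 1) * q ^ n) atTop (𝓝 0) :=
    tendsto_pow_const_mul_const_pow_of_abs_lt_one (m + 1) (by rw [abs_of_nonneg hq0]; exact hq1)
  have hlim2 : Tendsto (fun n : ℕ => 2 ^ (m + 1) * ((n : ℝ) ^ (m + 1) * q ^ n)) atTop (𝓝 0) := by
    simpa using hlim.const_mul (2 ^ (m + 1) : ℝ)
  obtain ⟨M₀, hM₀⟩ := Filter.eventually_atTop.1
    (hlim2.eventually (gt_mem_nhds (show (0 : ℝ) < 1 / 4 by norm_num)))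
  refine ⟨M₀, fun M hM hM1 t ht => ?_⟩
  have hsmall := hM₀ M hM
  -- the distance to the centre
  have hf0 := Int.fract_nonneg t
  have hf1 := Int.fract_lt_one t
  have hc : Real.cos (2 * Real.pi * (Int.fract t - (lo + hi) / 2)) ≤ Real.cos (Real.pi * w) := by
    apply bp_cos_le _ _ _ hw0
    · by_contra hcon
      push Not at hcon
      rw [abs_lt] at hcon
      apply ht
      constructor <;> linarith [hcon.1, hcon.2]
    · rw [abs_le]
      constructor <;> linarith
  have hK : bpK ((lo + hi) / 2) M t ≤ q ^ M * (2 * M) := by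
    rw [← bpK_period]
    unfold bpK
    have h3 := Real.neg_one_le_cos (2 * Real.pi * (Int.fract t - (lo + hi) / 2))
    apply mul_le_mul
    · apply pow_le_pow_left₀
      · linarith
      · rw [hq]; linarith
    · exact bp_central M hM1
    · positivity
    · positivity
  calc bpK ((lo + hi) / 2) M t * (2 * M) ^ m ≤ (q ^ M * (2 * M)) * (2 * M) ^ m :=
        mul_le_mul_of_nonneg_right hK (by positivity)
    _ = 2 ^ (m + 1) * ((M : ℝ) ^ (m + 1) * q ^ M) := by
        rw [mul_assoc, ← pow_succ', mul_pow]; ring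
    _ ≤ 1 / 4 := hsmall.le

/-- REC-13b -/
theorem box_point (m : ℕ) (lo hi : Fin m → ℝ) (h0 : ∀ i, 0 ≤ lo i) (hlt : ∀ i, lo i < hi i)
    (h1 : ∀ i, hi i ≤ 1) :
    ∃ (K : Finset (Fin m → ℤ)) (ε : ℝ), 0 < ε ∧ 0 ∉ K ∧
      ∀ (J : Finset ℤ) (y : ℤ → Fin m → ℝ), J.Nonempty →
        (∀ κ ∈ K, ‖∑ n ∈ J, ec (∑ i, (κ i : ℝ) * y n i)‖ ≤ ε * J.card) →
        ∃ n ∈ J, ∀ i, lo i ≤ Int.fract (y n i) ∧ Int.fract (y n i) ≤ hi i := by
  classical
  -- common parameter
  choose M₀ hM₀ using fun i => bpK_small (lo i) (hi i) (h0 i) (hlt i) (h1 i) m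
  set M : ℕ := (∑ i, M₀ i) + 1 with hM
  have hM1 : 1 ≤ M := by omega
  have hMi : ∀ i, M₀ i ≤ M := by
    intro i
    have := Finset.single_le_sum (f := M₀) (fun i _ => Nat.zero_le _) (Finset.mem_univ i)
    omega
  set c : Fin m → ℝ := fun i => (lo i + hi i) / 2 with hc
  set I : Finset (Fin m → ℕ) := Fintype.piFinset fun _ => range (2 * M + 1) with hI
  set j0 : Fin m → ℕ := fun _ => M with hj0
  have hj0I : j0 ∈ I := by
    rw [hI, Fintype.mem_piFinset]
    intro i; simp only [hj0, Finset.mem_range]; omega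
  set coef : (Fin m → ℕ) → ℂ := fun j => ∏ i, bpA (c i) M (j i) with hcoef
  set A : ℝ := ∑ j ∈ I, ‖coef j‖ with hA
  have hA0 : 0 ≤ A := Finset.sum_nonneg fun _ _ => norm_nonneg _
  set fr : (Fin m → ℕ) → Fin m → ℤ := fun j i => (j i : ℤ) - M with hfr
  refine ⟨(I.erase j0).image fr, 1 / (2 * (A + 1)), by positivity, ?_, ?_⟩
  · intro h
    obtain ⟨j, hj, hj2⟩ := Finset.mem_image.1 h
    apply (Finset.mem_erase.1 hj).1
    funext i
    have := congrFun hj2 i
    simp only [hfr, Pi.zero_apply] at this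
    rw [hj0]; simp only; omega
  · intro J y hJ hsum
    by_contra hcon
    push Not at hcon
    have hJc : (0 : ℝ) < J.card := by exact_mod_cast hJ.card_pos
    -- product kernel
    have hprod : ∀ n, ((∏ i, bpK (c i) M (y n i) : ℝ) : ℂ) =
        ∑ j ∈ I, coef j * ec (∑ i, (fr j i : ℝ) * y n i) := by
      intro n
      rw [Complex.ofReal_prod]
      have e1 : ∀ i, ((bpK (c i) M (y n i) : ℝ) : ℂ) =
          ∑ j ∈ range (2 * M + 1), bpA (c i) M j * ec (((j : ℝ) - M) * y n i) :=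
        fun i => (bp_expand (c i) M (y n i)).symm
      simp only [e1]
      rw [Finset.prod_univ_sum]
      refine Finset.sum_congr rfl fun j _ => ?_
      rw [Finset.prod_mul_distrib]
      congr 1
      have e2 : ∀ (s : Finset (Fin m)) (g : Fin m → ℝ), ∏ i ∈ s, ec (g i) = ec (∑ i ∈ s, g i) := by
        intro s g
        induction s using Finset.induction_on with
        | empty => simp [ec_zero]
        | insert i s hi ih => rw [Finset.prod_insert hi, Finset.sum_insert hi, ec_add, ih]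
      rw [e2]
      congr 1
      refine Finset.sum_congr rfl fun i _ => ?_
      simp only [hfr]; push_cast; ring
    -- small outside the box
    have hsmall : ∀ n ∈ J, ∏ i, bpK (c i) M (y n i) ≤ 1 / 4 := by
      intro n hn
      obtain ⟨i, hi'⟩ := hcon n hn
      have hi'' : ¬ (lo i ≤ Int.fract (y n i) ∧ Int.fract (y n i) ≤ hi i) := by
        rintro ⟨a1, a2⟩
        exact absurd a2 (not_le.2 (hi' a1))
      have b1 := hM₀ i M (hMi i) hM1 (y n i) hi''
      rw [← Finset.mul_prod_erase Finset.univ _ (Finset.mem_univ i)]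
      have b2 : ∏ x ∈ Finset.univ.erase i, bpK (c x) M (y n x) ≤ (2 * M : ℝ) ^ m := by
        calc ∏ x ∈ Finset.univ.erase i, bpK (c x) M (y n x)
            ≤ ∏ x ∈ Finset.univ.erase i, (2 * M : ℝ) :=
              Finset.prod_le_prod (fun x _ => bpK_nonneg _ _ _) (fun x _ => bpK_le _ _ hM1 _)
          _ = (2 * M : ℝ) ^ (m - 1) := by
              rw [Finset.prod_const, Finset.card_erase_of_mem (Finset.mem_univ i)]; simp
          _ ≤ (2 * M : ℝ) ^ m := by
              apply pow_le_pow_right₀ _ (Nat.sub_le m 1)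
              have : (1 : ℝ) ≤ M := by exact_mod_cast hM1
              linarith
      exact le_trans (mul_le_mul_of_nonneg_left b2 (bpK_nonneg _ _ _)) b1
    have hsum1 : ∑ n ∈ J, ∏ i, bpK (c i) M (y n i) ≤ 1 / 4 * J.card := by
      calc _ ≤ ∑ n ∈ J, (1 / 4 : ℝ) := Finset.sum_le_sum hsmall
        _ = 1 / 4 * J.card := by rw [Finset.sum_const, nsmul_eq_mul]; ring
    -- the main term
    have hsum2 : ((∑ n ∈ J, ∏ i, bpK (c i) M (y n i) : ℝ) : ℂ) =
        (J.card : ℂ) + ∑ j ∈ I.erase j0, coef j * ∑ n ∈ J, ec (∑ i, (fr j i : ℝ) * y n i) := by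
      rw [Complex.ofReal_sum]
      simp only [hprod]
      rw [Finset.sum_comm, ← Finset.add_sum_erase I _ hj0I]
      congr 1
      · have e3 : coef j0 = 1 := by
          simp only [hcoef, hj0, bpA_self, Finset.prod_const_one]
        have e4 : ∀ n, ec (∑ i, (fr j0 i : ℝ) * y n i) = 1 := by
          intro n
          have : ∑ i, (fr j0 i : ℝ) * y n i = 0 := by
            apply Finset.sum_eq_zero
            intro i _
            simp [hfr, hj0]
          rw [this, ec_zero]
        simp [e3, e4]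
      · refine Finset.sum_congr rfl fun j _ => ?_
        rw [Finset.mul_sum]
    have hrest : ‖∑ j ∈ I.erase j0, coef j * ∑ n ∈ J, ec (∑ i, (fr j i : ℝ) * y n i)‖ ≤
        1 / 2 * J.card := by
      calc _ ≤ ∑ j ∈ I.erase j0, ‖coef j * ∑ n ∈ J, ec (∑ i, (fr j i : ℝ) * y n i)‖ :=
            norm_sum_le _ _
        _ ≤ ∑ j ∈ I.erase j0, ‖coef j‖ * (1 / (2 * (A + 1)) * J.card) := by
            refine Finset.sum_le_sum fun j hj => ?_
            rw [norm_mul]
            exact mul_le_mul_of_nonneg_left (hsum _ (Finset.mem_image_of_mem _ hj))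
              (norm_nonneg _)
        _ = (∑ j ∈ I.erase j0, ‖coef j‖) * (1 / (2 * (A + 1)) * J.card) := by
            rw [Finset.sum_mul]
        _ ≤ A * (1 / (2 * (A + 1)) * J.card) := by
            apply mul_le_mul_of_nonneg_right _ (by positivity)
            exact Finset.sum_le_sum_of_subset_of_nonneg (Finset.erase_subset _ _)
              (fun _ _ _ => norm_nonneg _)
        _ ≤ (A + 1) * (1 / (2 * (A + 1)) * J.card) := by
            apply mul_le_mul_of_nonneg_right (by linarith) (by positivity)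
        _ = 1 / 2 * J.card := by field_simp
    have hre := congrArg Complex.re hsum2
    rw [Complex.ofReal_re, Complex.add_re, Complex.natCast_re] at hre
    have habs := (Complex.abs_re_le_norm
      (∑ j ∈ I.erase j0, coef j * ∑ n ∈ J, ec (∑ i, (fr j i : ℝ) * y n i))).trans hrest
    rw [abs_le] at habs
    linarith [habs.1]

end Pool.Agent.Helper50.Rec
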