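import Pool.Agent.Helper28.Rec.ArithC
import Pool.Agent.Helper28.Rec.BoxPoint
import Pool.Agent.Helper31.Rec.TaylorRpow

/-!
# REC-13: assembly of the arithmetic input
-/

open Finset Filter Topology Polynomial
open scoped BigOperators

namespace Pool.Agent.Helper50.Rec

/-- the statement of `phase_sum` -/
def PhaseSum : Prop := ∀ (a b : ℝ) (D e : ℕ) (_ : Params a b D e) (r : ℕ) (_ : 1 ≤ r) (η : ℝ)
    (_ : 0 < η) (κb : Fin D → ℤ) (κa : Fin e → ℤ) (_ : κb ≠ 0 ∨ κa ≠ 0) (c ε : ℝ)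
    (_ : 0 < c) (_ : 0 < ε),
    ∃ q₀ : ℕ, ∀ q ≥ q₀, ∀ u v : ℝ, winU b D r η q ≤ u → u < v → v ≤ winV b D r q →
      c * (winU b D r η q / ((winU b D r η q) ^ (a - e) * (q : ℝ) ^ e)) ≤ v - u →
      ‖∑ n ∈ Finset.Icc ⌈u⌉ ⌊v⌋, ec (phase a b D e r q κb κa (n : ℤ))‖ ≤ ε * (v - u)

/-- the simultaneous conditions on the fractional parts -/
theorem ar_points (hphase : PhaseSum) (a b : ℝ) (D e : ℕ) (hp : Params a b D e) (r : ℕ)
    (hr : 1 ≤ r) (δ : ℝ) (hδ : 0 < δ) (hδ1 : δ ≤ 1) (c : ℝ) (hc : 0 < c) :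
    ∃ q₀ : ℕ, ∀ q ≥ q₀, ∀ u v : ℝ, winU b D r δ q ≤ u → u < v → v ≤ winV b D r q →
      c * (winU b D r δ q / ((winU b D r δ q) ^ (a - e) * (q : ℝ) ^ e)) ≤ v - u →
      2 ≤ v - u →
      ∃ n : ℤ, u ≤ n ∧ (n : ℝ) ≤ v ∧
        (∀ i : ℕ, i < D →
          (if i = 0 then 1 / (4 * (r : ℝ)) else 0) ≤
            Int.fract (gb b i * (n : ℝ) ^ (b - (i : ℕ)) * (q : ℝ) ^ i / r) ∧
          Int.fract (gb b i * (n : ℝ) ^ (b - (i : ℕ)) * (q : ℝ) ^ i / r) ≤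
            (if i = 0 then 1 / (2 * (r : ℝ)) else δ)) ∧
        (∀ i : ℕ, i < e →
          (if i = 0 then 1 / (4 * (r : ℝ)) else 0) ≤
            Int.fract (gb a i * (n : ℝ) ^ (a - (i : ℕ)) * (q : ℝ) ^ i / r) ∧
          Int.fract (gb a i * (n : ℝ) ^ (a - (i : ℕ)) * (q : ℝ) ^ i / r) ≤
            (if i = 0 then 1 / (2 * (r : ℝ)) else δ)) := by
  classical
  have hr0 : (0 : ℝ) < r := by exact_mod_cast hr
  have hr1 : (1 : ℝ) ≤ r := by exact_mod_cast hr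
  set lo0 : ℕ → ℝ := fun i => if i = 0 then 1 / (4 * (r : ℝ)) else 0 with hlo0
  set hi0 : ℕ → ℝ := fun i => if i = 0 then 1 / (2 * (r : ℝ)) else δ with hhi0
  have hA : ∀ i, 0 ≤ lo0 i := by
    intro i; simp only [hlo0]; split_ifs <;> positivity
  have hB : ∀ i, lo0 i < hi0 i := by
    intro i; simp only [hlo0, hhi0]; split_ifs
    · apply div_lt_div_of_pos_left one_pos (by positivity); linarith
    · exact hδ
  have hC : ∀ i, hi0 i ≤ 1 := by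
    intro i; simp only [hhi0]; split_ifs
    · rw [div_le_one (by positivity)]; linarith
    · exact hδ1
  set lo : Fin (D + e) → ℝ := Fin.addCases (fun i : Fin D => lo0 i) (fun i : Fin e => lo0 i)
    with hlo
  set hi : Fin (D + e) → ℝ := Fin.addCases (fun i : Fin D => hi0 i) (fun i : Fin e => hi0 i)
    with hhi
  obtain ⟨K, ε, hε, hK0, hbox⟩ := box_point (D + e) lo hi
    (fun i => by refine Fin.addCases (fun i => ?_) (fun i => ?_) i <;> simp [hlo, hA])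
    (fun i => by refine Fin.addCases (fun i => ?_) (fun i => ?_) i <;> simp [hlo, hhi, hB])
    (fun i => by refine Fin.addCases (fun i => ?_) (fun i => ?_) i <;> simp [hhi, hC])
  -- the exponential sums
  have hκ : ∀ κ : Fin (D + e) → ℤ, ∃ q₀ : ℕ, κ ∈ K → ∀ q ≥ q₀, ∀ u v : ℝ,
      winU b D r δ q ≤ u → u < v → v ≤ winV b D r q →
      c * (winU b D r δ q / ((winU b D r δ q) ^ (a - e) * (q : ℝ) ^ e)) ≤ v - u →
      ‖∑ n ∈ Finset.Icc ⌈u⌉ ⌊v⌋, ec (phase a b D e r q (fun i => κ (Fin.castAdd e i))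
        (fun i => κ (Fin.natAdd D i)) (n : ℤ))‖ ≤ ε / 2 * (v - u) := by
    intro κ
    by_cases hκK : κ ∈ K
    · have hne : (fun i => κ (Fin.castAdd e i)) ≠ (0 : Fin D → ℤ) ∨
          (fun i => κ (Fin.natAdd D i)) ≠ (0 : Fin e → ℤ) := by
        by_contra hcon
        push Not at hcon
        apply hK0
        have : κ = 0 := by
          funext i
          refine Fin.addCases (fun i => ?_) (fun i => ?_) i
          · exact congrFun hcon.1 i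
          · exact congrFun hcon.2 i
        rwa [this] at hκK
      obtain ⟨q₀, hq₀⟩ := hphase a b D e hp r hr δ hδ _ _ hne c (ε / 2) hc (by positivity)
      exact ⟨q₀, fun _ => hq₀⟩
    · exact ⟨0, fun h => absurd h hκK⟩
  choose q₀ hq₀ using hκ
  refine ⟨K.sup q₀, fun q hq u v hu huv hv hlen h2 => ?_⟩
  set y : ℤ → Fin (D + e) → ℝ := fun n =>
    Fin.addCases (fun i : Fin D => gb b i * (n : ℝ) ^ (b - (i : ℕ)) * (q : ℝ) ^ (i : ℕ) / r)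
      (fun i : Fin e => gb a i * (n : ℝ) ^ (a - (i : ℕ)) * (q : ℝ) ^ (i : ℕ) / r) with hy
  have hcard : (v - u) / 2 ≤ ((Finset.Icc ⌈u⌉ ⌊v⌋).card : ℝ) := by
    rw [Int.card_Icc]
    have h3 := Int.lt_floor_add_one v
    have h4 := Int.ceil_lt_add_one u
    have h5 : (⌊v⌋ + 1 - ⌈u⌉ : ℝ) ≤ ((⌊v⌋ + 1 - ⌈u⌉).toNat : ℝ) := by
      have := Int.self_le_toNat (⌊v⌋ + 1 - ⌈u⌉)
      exact_mod_cast this
    linarith
  have hJ : (Finset.Icc ⌈u⌉ ⌊v⌋).Nonempty := by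
    rw [← Finset.card_pos]
    have : (0 : ℝ) < ((Finset.Icc ⌈u⌉ ⌊v⌋).card : ℝ) := by linarith
    exact_mod_cast this
  obtain ⟨n, hn, hbn⟩ := hbox (Finset.Icc ⌈u⌉ ⌊v⌋) y hJ (by
    intro κ hκ
    have h3 := hq₀ κ hκ q (le_trans (Finset.le_sup hκ) hq) u v hu huv hv hlen
    have h4 : ∀ n : ℤ, ∑ i, (κ i : ℝ) * y n i = phase a b D e r q (fun i => κ (Fin.castAdd e i))
        (fun i => κ (Fin.natAdd D i)) (n : ℤ) := by
      intro n
      rw [Fin.sum_univ_add]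
      unfold phase
      simp only [hy, Fin.addCases_left, Fin.addCases_right]
    simp only [h4]
    refine h3.trans ?_
    have : ε / 2 * (v - u) = ε * ((v - u) / 2) := by ring
    rw [this]
    exact mul_le_mul_of_nonneg_left hcard hε.le)
  rw [Finset.mem_Icc] at hn
  refine ⟨n, ?_, ?_, fun i hi' => ?_, fun i hi' => ?_⟩
  · exact Int.ceil_le.1 hn.1
  · exact Int.le_floor.1 hn.2
  · have := hbn (Fin.castAdd e ⟨i, hi'⟩)
    simpa only [hlo, hhi, hy, Fin.addCases_left, hlo0, hhi0] using this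
  · have := hbn (Fin.natAdd D ⟨i, hi'⟩)
    simpa only [hlo, hhi, hy, Fin.addCases_right, hlo0, hhi0] using this

/-- the value of a power at `n + q h`, in terms of a polynomial in `h` -/
theorem ar_value (γ : ℝ) (d r H q : ℕ) (n : ℤ) (U C δ : ℝ) (lead : ℤ) (hd : 1 ≤ d) (hr : 1 ≤ r)
    (hγ : γ < d + 1) (hU : 0 < U) (hUn : U ≤ n) (hC0 : 0 ≤ C)
    (hC : ∀ N x : ℝ, 0 < N → 0 ≤ x → x ≤ N / 2 →
      |(N + x) ^ γ - ∑ i ∈ range (d + 1), gb γ i * N ^ (γ - (i : ℕ)) * x ^ i| ≤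
      C * N ^ (γ - (d + 1 : ℕ)) * x ^ (d + 1))
    (hqH : (q : ℝ) * H ≤ U / 2)
    (herr : C * (H : ℝ) ^ (d + 1) * (U ^ (γ - (d + 1 : ℕ)) * (q : ℝ) ^ (d + 1)) ≤ 1 / 16)
    (hδ0 : 0 ≤ δ) (hδ : δ * ((d : ℝ) * r * (H : ℝ) ^ d) ≤ 1 / 16)
    (hlead : |gb γ d * (n : ℝ) ^ (γ - (d : ℕ)) * (q : ℝ) ^ d - lead| * (H : ℝ) ^ d ≤ 1 / 16)
    (hfr : ∀ i : ℕ, i < d →
      (if i = 0 then 1 / (4 * (r : ℝ)) else 0) ≤
        Int.fract (gb γ i * (n : ℝ) ^ (γ - (i : ℕ)) * (q : ℝ) ^ i / r) ∧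
      Int.fract (gb γ i * (n : ℝ) ^ (γ - (i : ℕ)) * (q : ℝ) ^ i / r) ≤
        (if i = 0 then 1 / (2 * (r : ℝ)) else δ)) (h : ℕ) (hh : h ≤ H) :
    ⌊((n : ℝ) + (q : ℝ) * h) ^ γ⌋ = ∑ i ∈ range d,
      (r : ℤ) * ⌊gb γ i * (n : ℝ) ^ (γ - (i : ℕ)) * (q : ℝ) ^ i / r⌋ * (h : ℤ) ^ i +
        lead * (h : ℤ) ^ d := by
  have hn0 : (0 : ℝ) < n := lt_of_lt_of_le hU hUn
  have hhH : (h : ℝ) ≤ H := by exact_mod_cast hh
  have hq0 : (0 : ℝ) ≤ q := Nat.cast_nonneg q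
  have hx : (q : ℝ) * h ≤ U / 2 := le_trans (mul_le_mul_of_nonneg_left hhH hq0) hqH
  have hT := hC n (q * h) hn0 (by positivity) (by linarith)
  refine ar_floor r d H hr hd (fun i => gb γ i * (n : ℝ) ^ (γ - (i : ℕ)) * (q : ℝ) ^ i) lead δ hδ0
    hδ h hh ?_ ?_ hlead _ ?_
  · have := hfr 0 (by omega)
    simpa using this
  · intro i h1 h2
    have := (hfr i h2).2
    rwa [if_neg (by omega)] at this
  · have e1 : ∑ i ∈ range (d + 1), gb γ i * (n : ℝ) ^ (γ - (i : ℕ)) * ((q : ℝ) * h) ^ i =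
        ∑ i ∈ range (d + 1), gb γ i * (n : ℝ) ^ (γ - (i : ℕ)) * (q : ℝ) ^ i * (h : ℝ) ^ i := by
      refine Finset.sum_congr rfl fun i _ => ?_
      rw [mul_pow]; ring
    rw [e1] at hT
    refine hT.trans (le_trans ?_ herr)
    have h3 : (n : ℝ) ^ (γ - (d + 1 : ℕ)) ≤ U ^ (γ - (d + 1 : ℕ)) :=
      Real.rpow_le_rpow_of_nonpos hU hUn (by push_cast; linarith)
    have h4 : 0 ≤ (n : ℝ) ^ (γ - (d + 1 : ℕ)) := Real.rpow_nonneg hn0.le _
    have h5 : (h : ℝ) ^ (d + 1) ≤ (H : ℝ) ^ (d + 1) := pow_le_pow_left₀ (Nat.cast_nonneg _) hhH _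
    calc C * (n : ℝ) ^ (γ - (d + 1 : ℕ)) * ((q : ℝ) * h) ^ (d + 1)
        = C * ((h : ℝ) ^ (d + 1) * ((n : ℝ) ^ (γ - (d + 1 : ℕ)) * (q : ℝ) ^ (d + 1))) := by
          rw [mul_pow]; ring
      _ ≤ C * ((H : ℝ) ^ (d + 1) * (U ^ (γ - (d + 1 : ℕ)) * (q : ℝ) ^ (d + 1))) := by
          apply mul_le_mul_of_nonneg_left _ hC0
          apply mul_le_mul h5 _ (by positivity) (by positivity)
          exact mul_le_mul_of_nonneg_right h3 (by positivity)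
      _ = C * (H : ℝ) ^ (d + 1) * (U ^ (γ - (d + 1 : ℕ)) * (q : ℝ) ^ (d + 1)) := by ring

theorem arith_core (hphase : PhaseSum) (a b : ℝ) (ha : 1 < a) (hab : a < b)
    (ha' : ∀ k : ℤ, a ≠ k) (hb' : ∀ k : ℤ, b ≠ k) :
    ∃ e D : ℕ, 1 ≤ e ∧ e < D ∧ ∃ s : ℤ, (s = 1 ∨ s = -1) ∧
      ∀ r H L₀ : ℕ, 1 ≤ r → ∃ L : ℕ, ∃ x₀ : ℤ, L₀ ≤ L ∧
        ∀ x : ℤ, x₀ ≤ x → x < x₀ + L → ∃ A B : ℤ[X], ∃ n : ℕ → ℕ,
          A.natDegree = e ∧ A.leadingCoeff = r * x ∧ (∀ i, (r : ℤ) ∣ A.coeff i) ∧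
          B.natDegree = D ∧ B.leadingCoeff = s * r ∧ (∀ i, (r : ℤ) ∣ B.coeff i) ∧
          ∀ h < H, 0 < n h ∧ ((⌊(n h : ℝ) ^ a⌋₊ : ℕ) : ℤ) = A.eval (h : ℤ) ∧
            ((⌊(n h : ℝ) ^ b⌋₊ : ℕ) : ℤ) = B.eval (h : ℤ) ∧
            ⌊(n h : ℝ) ^ a⌋₊ ≠ ⌊(n h : ℝ) ^ b⌋₊ := by
  obtain ⟨D, e, hp, he1, heD, hbD, hae, heb, hea⟩ := ar_params a b ha hab ha' hb'
  have hgb := ar_gb_ne b hb' D
  have hga := ar_gb_ne a ha' e
  set G : ℝ := |gb b D| with hG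
  have hG0 : 0 < G := abs_pos.2 hgb
  set g : ℝ := gb a e with hg
  have hg0 : 0 < |g| := abs_pos.2 hga
  have hDb : (0 : ℝ) < D - b := by linarith
  obtain ⟨s, hs, hsG⟩ : ∃ s : ℤ, (s = 1 ∨ s = -1) ∧ gb b D = s * G := by
    rcases lt_or_gt_of_ne hgb with h | h
    · exact ⟨-1, Or.inr rfl, by rw [hG, abs_of_neg h]; push_cast; ring⟩
    · exact ⟨1, Or.inl rfl, by rw [hG, abs_of_pos h]; push_cast; ring⟩
  have hs2 : |(s : ℝ)| = 1 := by
    rcases hs with h | h <;> rw [h] <;> simp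
  refine ⟨e, D, he1, heD, s, hs, fun r H L₀ hr => ?_⟩
  have hr0 : (0 : ℝ) < r := by exact_mod_cast hr
  have hr1 : (1 : ℝ) ≤ r := by exact_mod_cast hr
  -- the small parameter
  set W : ℝ := ((D : ℝ) + 1) * r * ((H : ℝ) + 1) ^ D with hW
  have hH1 : (1 : ℝ) ≤ (H : ℝ) + 1 := by
    have : (0 : ℝ) ≤ H := Nat.cast_nonneg H
    linarith
  have hW1 : 1 ≤ W := by
    rw [hW]
    have h1 : (1 : ℝ) ≤ (D : ℝ) + 1 := by
      have : (0 : ℝ) ≤ D := Nat.cast_nonneg D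
      linarith
    have h2 : (1 : ℝ) ≤ ((H : ℝ) + 1) ^ D := one_le_pow₀ hH1
    have h3 := one_le_mul_of_one_le_of_one_le h1 hr1
    exact one_le_mul_of_one_le_of_one_le h3 h2
  set δ : ℝ := 1 / (16 * W) with hδ
  have hδ0 : 0 < δ := by positivity
  have hδ1 : δ ≤ 1 := by
    rw [hδ, div_le_one (by positivity)]; linarith
  have hδW : δ * W = 1 / 16 := by rw [hδ]; field_simp
  have hHpow : ∀ d : ℕ, d ≤ D → (H : ℝ) ^ d ≤ ((H : ℝ) + 1) ^ D := fun d hd =>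
    calc (H : ℝ) ^ d ≤ ((H : ℝ) + 1) ^ d := pow_le_pow_left₀ (Nat.cast_nonneg _) (by linarith) _
      _ ≤ ((H : ℝ) + 1) ^ D := pow_le_pow_right₀ hH1 hd
  have hδd : ∀ d : ℕ, d ≤ D → δ * ((d : ℝ) * r * (H : ℝ) ^ d) ≤ 1 / 16 := by
    intro d hd
    rw [← hδW]
    apply mul_le_mul_of_nonneg_left _ hδ0.le
    rw [hW]
    have h1 : (d : ℝ) ≤ (D : ℝ) + 1 := by
      have : (d : ℝ) ≤ D := by exact_mod_cast hd
      linarith
    have := hHpow d hd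
    gcongr
  have hδr : ∀ d : ℕ, d ≤ D → (r * δ) * (H : ℝ) ^ d ≤ 1 / 16 := by
    intro d hd
    rw [← hδW, mul_comm (r : ℝ) δ, mul_assoc]
    apply mul_le_mul_of_nonneg_left _ hδ0.le
    rw [hW]
    have h1 : (1 : ℝ) ≤ (D : ℝ) + 1 := by
      have : (0 : ℝ) ≤ D := Nat.cast_nonneg D
      linarith
    have h2 := hHpow d hd
    calc (r : ℝ) * (H : ℝ) ^ d ≤ 1 * r * ((H : ℝ) + 1) ^ D := by
          rw [one_mul]; exact mul_le_mul_of_nonneg_left h2 hr0.le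
      _ ≤ _ := by gcongr
  set lam : ℝ := (e : ℝ) - a with hlam
  have hlam0 : 0 < lam := by rw [hlam]; linarith
  have hale : a - e = -lam := by rw [hlam]; ring
  set c : ℝ := r * δ / (|g| * lam) with hc
  have hc0 : 0 < c := by positivity
  obtain ⟨q₁, hq₁⟩ := ar_points hphase a b D e hp r hr δ hδ0 hδ1 c hc0
  obtain ⟨Ca, hCa0, hCa⟩ := taylor_rpow a e
  obtain ⟨Cb, hCb0, hCb⟩ := taylor_rpow b D
  obtain ⟨n₀, hn₀1, hn₀⟩ := ar_distinct a b (by linarith) hab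
  -- the ratio of the end points
  set θ : ℝ := ((r + δ) / r) ^ (1 / ((D : ℝ) - b)) with hθ
  have hθ1 : 1 < θ := by
    apply Real.one_lt_rpow
    · rw [one_lt_div hr0]; linarith
    · positivity
  have hθ0 : 0 < θ := by linarith
  have hθlam : θ ^ (-lam) < 1 := Real.rpow_lt_one_of_one_lt_of_neg hθ1 (by linarith)
  set ρ : ℝ := (D : ℝ) / (D - b) with hρ
  have hρ1 : ρ * (D - b) = D := by rw [hρ]; field_simp
  have hρ0 : 0 < ρ := by
    rw [hρ]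
    have : (0 : ℝ) < D := by linarith
    positivity
  -- eventual conditions
  have ev1 : ∀ᶠ q : ℕ in atTop, winU b D r δ q ^ (-1 : ℝ) * (q : ℝ) ^ (1 : ℝ) <
      1 / (2 * ((H : ℝ) + 1)) :=
    (ar_tendsto_zero hb' hδ0 (-1) 1 (by rw [← hρ]; nlinarith)).eventually
      (gt_mem_nhds (by positivity))
  have ev2 : ∀ᶠ q : ℕ in atTop, r * ((L₀ : ℝ) + 1) / (|g| * (1 - θ ^ (-lam))) ≤
      winU b D r δ q ^ (-lam) * (q : ℝ) ^ (e : ℝ) :=
    (ar_tendsto_top hb' hδ0 (-lam) e (by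
      rw [← hρ]
      have h1 : (ρ * -lam + e) * (D - b) = a * D - e * b := by
        have : (ρ * -lam + e) * (D - b) = -lam * (ρ * (D - b)) + e * (D - b) := by ring
        rw [this, hρ1, hlam]; ring
      by_contra hcon
      push Not at hcon
      have h2 := mul_nonpos_of_nonpos_of_nonneg hcon hDb.le
      rw [h1] at h2
      linarith)).eventually_ge_atTop _
  have ev3 : ∀ᶠ q : ℕ in atTop, 2 / c ≤ winU b D r δ q ^ (1 + lam) * (q : ℝ) ^ (-(e : ℝ)) :=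
    (ar_tendsto_top hb' hδ0 (1 + lam) (-e) (by
      rw [← hρ]
      have h1 : (ρ * (1 + lam) + -e) * (D - b) = D - (a * D - e * b) := by
        have : (ρ * (1 + lam) + -e) * (D - b) = (1 + lam) * (ρ * (D - b)) - e * (D - b) := by ring
        rw [this, hρ1, hlam]; ring
      by_contra hcon
      push Not at hcon
      have h2 := mul_nonpos_of_nonpos_of_nonneg hcon hDb.le
      rw [h1] at h2
      linarith)).eventually_ge_atTop _
  have ev4 : ∀ᶠ q : ℕ in atTop, winU b D r δ q ^ (a - (e + 1 : ℕ)) * (q : ℝ) ^ ((e + 1 : ℕ) : ℝ) <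
      1 / (16 * (Ca * (H : ℝ) ^ (e + 1) + 1)) :=
    (ar_tendsto_zero hb' hδ0 _ _ (by
      rw [← hρ]
      have h1 : (ρ * (a - (e + 1 : ℕ)) + ((e + 1 : ℕ) : ℝ)) * (D - b) = a * D - (e + 1) * b := by
        have : (ρ * (a - (e + 1 : ℕ)) + ((e + 1 : ℕ) : ℝ)) * (D - b) =
          (a - (e + 1 : ℕ)) * (ρ * (D - b)) + ((e + 1 : ℕ) : ℝ) * (D - b) := by ring
        rw [this, hρ1]; push_cast; ring
      by_contra hcon
      push Not at hcon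
      have h2 := mul_nonneg hcon hDb.le
      rw [h1] at h2
      linarith)).eventually (gt_mem_nhds (by positivity))
  have ev5 : ∀ᶠ q : ℕ in atTop, winU b D r δ q ^ (b - (D + 1 : ℕ)) * (q : ℝ) ^ ((D + 1 : ℕ) : ℝ) <
      1 / (16 * (Cb * (H : ℝ) ^ (D + 1) + 1)) :=
    (ar_tendsto_zero hb' hδ0 _ _ (by
      rw [← hρ]
      have h1 : (ρ * (b - (D + 1 : ℕ)) + ((D + 1 : ℕ) : ℝ)) * (D - b) = -b := by
        have : (ρ * (b - (D + 1 : ℕ)) + ((D + 1 : ℕ) : ℝ)) * (D - b) =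
          (b - (D + 1 : ℕ)) * (ρ * (D - b)) + ((D + 1 : ℕ) : ℝ) * (D - b) := by ring
        rw [this, hρ1]; push_cast; ring
      by_contra hcon
      push Not at hcon
      have h2 := mul_nonneg hcon hDb.le
      rw [h1] at h2
      linarith)).eventually (gt_mem_nhds (by positivity))
  have ev6 : ∀ᶠ q : ℕ in atTop, n₀ ≤ winU b D r δ q ^ (1 : ℝ) * (q : ℝ) ^ (0 : ℝ) :=
    (ar_tendsto_top hb' hδ0 1 0 (by rw [← hρ]; linarith)).eventually_ge_atTop _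
  obtain ⟨q, hqq₁, hq1, h1, h2, h3, h4, h5, h6⟩ := ((Filter.eventually_ge_atTop q₁).and
    ((Filter.eventually_ge_atTop 1).and (ev1.and (ev2.and (ev3.and (ev4.and
      (ev5.and ev6))))))).exists
  have hq0 : (0 : ℝ) < q := by exact_mod_cast hq1
  set U : ℝ := winU b D r δ q with hU
  set V : ℝ := winV b D r q with hV
  have hU0 : 0 < U := ar_winU_pos hb' hδ0 hq1
  have hVU : V = θ * U := ar_winV_eq hδ0 hr
  have hUV : U ≤ V := by rw [hVU]; exact le_mul_of_one_le_left hU0.le hθ1.le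
  rw [Real.rpow_natCast] at h4 h5
  rw [Real.rpow_natCast] at h2
  rw [Real.rpow_one, Real.rpow_zero, mul_one] at h6
  -- consequences
  have hqH : (q : ℝ) * H ≤ U / 2 := by
    rw [Real.rpow_neg_one, Real.rpow_one, ← div_eq_inv_mul, div_lt_div_iff₀ hU0 (by positivity)]
      at h1
    have e1 : (q : ℝ) * (2 * ((H : ℝ) + 1)) = 2 * (q * H) + 2 * q := by ring
    linarith
  have hlenL : r * ((L₀ : ℝ) + 1) ≤ |g| * (q : ℝ) ^ e * U ^ (-lam) -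
      |g| * (q : ℝ) ^ e * V ^ (-lam) := by
    have e1 : V ^ (-lam) = θ ^ (-lam) * U ^ (-lam) := by
      rw [hVU, Real.mul_rpow hθ0.le hU0.le]
    have hpos : 0 < |g| * (1 - θ ^ (-lam)) := mul_pos hg0 (by linarith)
    rw [div_le_iff₀ hpos] at h2
    rw [e1]
    calc _ ≤ U ^ (-lam) * (q : ℝ) ^ e * (|g| * (1 - θ ^ (-lam))) := h2
      _ = _ := by ring
  obtain ⟨x₀, hx₀⟩ := ar_interval lam g ((q : ℝ) ^ e) U V r δ L₀ hlam0 hga (by positivity) hU0 hUV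
    hr0 hδ0 hδ1 hlenL
  refine ⟨L₀, x₀, le_rfl, fun x hx1 hx2 => ?_⟩
  obtain ⟨hxne, u, v, hUu, huv, hvV, hrange, hlen⟩ := hx₀ x hx1 hx2
  have hU1lam : 0 < U ^ (1 + lam) := Real.rpow_pos_of_pos hU0 _
  have hlen' : c * (U ^ (1 + lam) / (q : ℝ) ^ e) ≤ v - u := by
    refine le_trans (le_of_eq ?_) hlen
    rw [hc]; field_simp
  have h2uv : 2 ≤ v - u := by
    refine le_trans ?_ hlen'
    rw [Real.rpow_neg hq0.le, Real.rpow_natCast, ← div_eq_mul_inv, div_le_iff₀ hc0] at h3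
    linarith
  obtain ⟨n, hn1, hn2, hfb, hfa⟩ := hq₁ q hqq₁ u v hUu huv hvV (by
    refine le_trans (le_of_eq ?_) hlen'
    rw [hale, Real.rpow_neg hU0.le, Real.rpow_add hU0, Real.rpow_one]
    have := Real.rpow_pos_of_pos hU0 lam
    field_simp
    exact hU.symm) h2uv
  have hUn : U ≤ n := le_trans hUu hn1
  have hn0 : (0 : ℝ) < n := lt_of_lt_of_le hU0 hUn
  have hnV : (n : ℝ) ≤ V := le_trans hn2 hvV
  -- the leading coefficients
  have hleadb : |gb b D * (n : ℝ) ^ (b - (D : ℕ)) * (q : ℝ) ^ D - ((s * r : ℤ) : ℝ)| *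
      (H : ℝ) ^ D ≤ 1 / 16 := by
    obtain ⟨k1, k2⟩ := ar_range hb' hδ0 hr hbD hq1 hUn hnV
    have e1 : gb b D * (n : ℝ) ^ (b - (D : ℕ)) * (q : ℝ) ^ D - ((s * r : ℤ) : ℝ) =
        s * (G * (n : ℝ) ^ (b - (D : ℕ)) * (q : ℝ) ^ D - r) := by
      rw [hsG]; push_cast; ring
    rw [e1, abs_mul, hs2, one_mul, abs_of_nonneg (by rw [hG]; linarith)]
    have e2 : G * (n : ℝ) ^ (b - (D : ℕ)) * (q : ℝ) ^ D - r ≤ r * δ := by
      have : δ ≤ r * δ := le_mul_of_one_le_left hδ0.le hr1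
      rw [hG]; linarith
    exact le_trans (mul_le_mul_of_nonneg_right e2 (by positivity)) (hδr D le_rfl)
  have hleada : |gb a e * (n : ℝ) ^ (a - (e : ℕ)) * (q : ℝ) ^ e - ((r * x : ℤ) : ℝ)| *
      (H : ℝ) ^ e ≤ 1 / 16 := by
    obtain ⟨k1, k2⟩ := hrange n hn1 hn2
    have e1 : gb a e * (n : ℝ) ^ (a - (e : ℕ)) * (q : ℝ) ^ e = g * (q : ℝ) ^ e * (n : ℝ) ^ (-lam) := by
      rw [hale, ← hg]; ring
    rw [e1]
    have e2 : |g * (q : ℝ) ^ e * (n : ℝ) ^ (-lam) - ((r * x : ℤ) : ℝ)| ≤ r * δ := by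
      push_cast
      rw [abs_le]
      have : 0 < r * δ := by positivity
      constructor <;> linarith
    exact le_trans (mul_le_mul_of_nonneg_right e2 (by positivity)) (hδr e heD.le)
  have herrb : Cb * (H : ℝ) ^ (D + 1) * (U ^ (b - (D + 1 : ℕ)) * (q : ℝ) ^ (D + 1)) ≤ 1 / 16 := by
    have hnn : 0 ≤ Cb * (H : ℝ) ^ (D + 1) := by positivity
    calc _ ≤ Cb * (H : ℝ) ^ (D + 1) * (1 / (16 * (Cb * (H : ℝ) ^ (D + 1) + 1))) :=
          mul_le_mul_of_nonneg_left h5.le hnn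
      _ ≤ (Cb * (H : ℝ) ^ (D + 1) + 1) * (1 / (16 * (Cb * (H : ℝ) ^ (D + 1) + 1))) :=
          mul_le_mul_of_nonneg_right (by linarith) (by positivity)
      _ = 1 / 16 := by field_simp
  have herra : Ca * (H : ℝ) ^ (e + 1) * (U ^ (a - (e + 1 : ℕ)) * (q : ℝ) ^ (e + 1)) ≤ 1 / 16 := by
    have hnn : 0 ≤ Ca * (H : ℝ) ^ (e + 1) := by positivity
    calc _ ≤ Ca * (H : ℝ) ^ (e + 1) * (1 / (16 * (Ca * (H : ℝ) ^ (e + 1) + 1))) :=
          mul_le_mul_of_nonneg_left h4.le hnn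
      _ ≤ (Ca * (H : ℝ) ^ (e + 1) + 1) * (1 / (16 * (Ca * (H : ℝ) ^ (e + 1) + 1))) :=
          mul_le_mul_of_nonneg_right (by linarith) (by positivity)
      _ = 1 / 16 := by field_simp
  -- the polynomials
  obtain ⟨A, hA1, hA2, hA3, hA4⟩ := ar_poly r e
    (fun i => ⌊gb a i * (n : ℝ) ^ (a - (i : ℕ)) * (q : ℝ) ^ i / r⌋) (r * x)
    (mul_ne_zero (by omega) hxne) (Dvd.intro _ rfl)
  obtain ⟨B, hB1, hB2, hB3, hB4⟩ := ar_poly r D
    (fun i => ⌊gb b i * (n : ℝ) ^ (b - (i : ℕ)) * (q : ℝ) ^ i / r⌋) (s * r)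
    (mul_ne_zero (by rcases hs with h | h <;> rw [h] <;> norm_num) (by omega))
    (Dvd.intro_left _ rfl)
  have hnpos : 0 < n := by exact_mod_cast hn0
  refine ⟨A, B, fun h => n.toNat + q * h, hA1, hA2, hA3, hB1, hB2, hB3, fun h hh => ?_⟩
  have hnat : ((n.toNat + q * h : ℕ) : ℝ) = (n : ℝ) + (q : ℝ) * h := by
    have : ((n.toNat : ℕ) : ℤ) = n := Int.toNat_of_nonneg hnpos.le
    have h7 : ((n.toNat : ℕ) : ℝ) = (n : ℝ) := by exact_mod_cast this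
    push_cast
    rw [h7]
  have hval0 : 0 ≤ (n : ℝ) + (q : ℝ) * h := by positivity
  refine ⟨by simp only; omega, ?_, ?_, ?_⟩
  · simp only
    rw [hnat, Int.natCast_floor_eq_floor (Real.rpow_nonneg hval0 a), hA4]
    exact ar_value a e r H q n U Ca δ (r * x) he1 hr (by linarith) hU0 hUn hCa0 hCa hqH herra hδ0.le
      (hδd e heD.le) hleada hfa h hh.le
  · simp only
    rw [hnat, Int.natCast_floor_eq_floor (Real.rpow_nonneg hval0 b), hB4]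
    exact ar_value b D r H q n U Cb δ (s * r) (by omega) hr (by linarith) hU0 hUn hCb0 hCb hqH herrb
      hδ0.le (hδd D le_rfl) hleadb hfb h hh.le
  · simp only
    rw [hnat]
    apply hn₀
    have : 0 ≤ (q : ℝ) * h := by positivity
    linarith

end Pool.Agent.Helper50.Rec
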